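import Pool.Agent.helper91.RB.Spec5

/-! # Row rb:SPL: completely split primes -/

set_option autoImplicit false

namespace Pool.Agent.RB

open NumberField IsDedekindDomain Module
open scoped nonZeroDivisors Real Classical IsMulCommutative

theorem SPL_mem {K : Type} [Field K] [NumberField K] (σ : K ≃+* K) (P : HOS K) (x : 𝓞 K) :
    x ∈ (act σ P).asIdeal ↔ (RingOfIntegers.mapRingEquiv σ).symm x ∈ P.asIdeal := Iff.rfl

theorem SPL_under (F H : Type) [Field F] [NumberField F] [Field H] [NumberField H] [Algebra F H]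
    (σ : H ≃ₐ[F] H) (P : HOS H) : (act (σ : H ≃+* H) P).under (𝓞 F) = P.under (𝓞 F) := by
  apply HeightOneSpectrum.ext
  ext x
  change (RingOfIntegers.mapRingEquiv (σ : H ≃+* H)).symm (algebraMap (𝓞 F) (𝓞 H) x) ∈ P.asIdeal ↔
    algebraMap (𝓞 F) (𝓞 H) x ∈ P.asIdeal
  have h1 : (RingOfIntegers.mapRingEquiv (σ : H ≃+* H)).symm (algebraMap (𝓞 F) (𝓞 H) x) =
      algebraMap (𝓞 F) (𝓞 H) x := by
    rw [RingEquiv.symm_apply_eq]
    apply RingOfIntegers.coe_injective
    exact (σ.commutes (x : F)).symm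
  rw [h1]

/-- transitivity -/
theorem SPL_tr (F H : Type) [Field F] [NumberField F] [Field H] [NumberField H] [Algebra F H]
    [IsGalois F H] (P Q : HOS H) (h : P.under (𝓞 F) = Q.under (𝓞 F)) :
    ∃ σ : H ≃ₐ[F] H, act (σ : H ≃+* H) P = Q := by
  have hP : P.asIdeal ∈ (P.under (𝓞 F)).asIdeal.primesOver (𝓞 H) := ⟨P.isPrime, ⟨rfl⟩⟩
  have hQ : Q.asIdeal ∈ (P.under (𝓞 F)).asIdeal.primesOver (𝓞 H) :=
    ⟨Q.isPrime, ⟨by rw [h]; rfl⟩⟩
  obtain ⟨σ, hσ⟩ := Ideal.exists_comap_galRestrict_eq (𝓞 F) F H (𝓞 H) hP hQ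
  refine ⟨σ.symm, HeightOneSpectrum.ext (Ideal.ext fun x => ?_)⟩
  rw [SPL_mem, ← hσ, Ideal.mem_comap]
  have e : (RingOfIntegers.mapRingEquiv ((σ.symm : H ≃ₐ[F] H) : H ≃+* H)).symm x =
      galRestrict (𝓞 F) F H (𝓞 H) σ x := by
    apply RingOfIntegers.coe_injective
    exact (algebraMap_galRestrict_apply (𝓞 F) (K := F) (L := H) (B := 𝓞 H) σ x).symm
  rw [e]

theorem SPL_inj (F H : Type) [Field F] [NumberField F] [Field H] [NumberField H] [Algebra F H]
    [IsGalois F H] (w : HOS H)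
    (hw : {P : HOS H | P.under (𝓞 F) = w.under (𝓞 F)}.ncard = finrank F H)
    (σ τ : H ≃ₐ[F] H) (h : act (σ : H ≃+* H) w = act (τ : H ≃+* H) w) : σ = τ := by
  let f : (H ≃ₐ[F] H) → {P : HOS H | P.under (𝓞 F) = w.under (𝓞 F)} := fun σ =>
    ⟨act (σ : H ≃+* H) w, SPL_under F H σ w⟩
  have hs : Function.Surjective f := by
    rintro ⟨P, hP⟩
    obtain ⟨σ, hσ⟩ := SPL_tr F H w P hP.symm
    exact ⟨σ, Subtype.ext hσ⟩
  have hc : Nat.card (H ≃ₐ[F] H) ≤ Nat.card {P : HOS H | P.under (𝓞 F) = w.under (𝓞 F)} := by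
    rw [Nat.card_coe_set_eq, hw, IsGalois.card_aut_eq_finrank]
  exact (hs.bijective_of_nat_card_le hc).1 (Subtype.ext h)

theorem SPL_e (F H : Type) [Field F] [NumberField F] [Field H] [NumberField H] [Algebra F H]
    (w : HOS H)
    (hw : {P : HOS H | P.under (𝓞 F) = w.under (𝓞 F)}.ncard = finrank F H) :
    (w.under (𝓞 F)).asIdeal.ramificationIdx' w.asIdeal = 1 := by
  set p := (w.under (𝓞 F)).asIdeal with hp
  have hp0 : p ≠ ⊥ := (w.under (𝓞 F)).ne_bot
  haveI : p.IsMaximal := (w.under (𝓞 F)).isMaximal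
  have hsum := Ideal.sum_ramification_inertia (𝓞 H) F H hp0
  have hcard : (IsDedekindDomain.primesOverFinset p (𝓞 H)).card = finrank F H := by
    rw [← hw, ← Set.ncard_coe_finset, IsDedekindDomain.coe_primesOverFinset hp0]
    rw [← Set.ncard_image_of_injective {P : HOS H | P.under (𝓞 F) = w.under (𝓞 F)}
      (f := fun P : HOS H => P.asIdeal) (fun P Q h => HeightOneSpectrum.ext h)]
    congr 1
    ext I
    constructor
    · rintro ⟨h1, h2⟩
      have hI : I ≠ ⊥ := by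
        rintro rfl
        apply hp0
        rw [h2.over]
        exact Ideal.under_bot (𝓞 F) (𝓞 H)
      exact ⟨⟨I, h1, hI⟩, HeightOneSpectrum.ext h2.over.symm, rfl⟩
    · rintro ⟨P, hP, rfl⟩
      exact ⟨P.isPrime, ⟨congrArg HeightOneSpectrum.asIdeal (Eq.symm hP)⟩⟩
  have hge : ∀ P ∈ IsDedekindDomain.primesOverFinset p (𝓞 H),
      1 ≤ Ideal.ramificationIdx' p P * Ideal.inertiaDeg' p P := by
    intro P hP
    have h1 := (IsDedekindDomain.mem_primesOverFinset_iff hp0 _).mp hP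
    have : P.IsPrime := h1.1
    have : P.LiesOver p := h1.2
    refine Right.one_le_mul ?_ ?_
    · exact Nat.pos_iff_ne_zero.mpr
        (Ideal.IsDedekindDomain.ramificationIdx'_ne_zero_of_liesOver _ hp0)
    · exact Ideal.inertiaDeg'_pos p P
  have hall := (Finset.sum_eq_sum_iff_of_le hge).1 (by
    rw [hsum, ← hcard, Finset.card_eq_sum_ones])
  have hwm : w.asIdeal ∈ IsDedekindDomain.primesOverFinset p (𝓞 H) :=
    (IsDedekindDomain.mem_primesOverFinset_iff hp0 _).mpr ⟨w.isPrime, ⟨rfl⟩⟩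
  exact Nat.eq_one_of_mul_eq_one_right (hall _ hwm).symm

theorem SPL (hVLU : VLU_stmt) (hARS : ARS_stmt) : SPL_stmt := by
  intro F H _ _ _ _ _ _ w hw
  have hinj := SPL_inj F H w hw
  have hone : act ((1 : H ≃ₐ[F] H) : H ≃+* H) w = w := by
    apply HeightOneSpectrum.ext
    ext x
    exact Iff.rfl
  refine ⟨fun σ hσ => hinj σ 1 (by rw [hσ, hone]), fun P hP => SPL_tr F H w P hP.symm, ?_⟩
  intro K _ _ _ _ _ _
  haveI : IsGalois K H := IsGalois.tower_top_of_isGalois F K H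
  have hund : (w.under (𝓞 K)).under (𝓞 F) = w.under (𝓞 F) := (hVLU K H).2.2.2 F w
  refine ⟨?_, ?_, ?_⟩
  · intro ρ hρ
    obtain ⟨σ, rfl⟩ := AlgEquiv.restrictNormalHom_surjective (F := F) (K₁ := K) H ρ
    have h1 : (act (σ : H ≃+* H) w).under (𝓞 K) = w.under (𝓞 K) := (hARS F K H σ w).trans hρ
    obtain ⟨b, hb⟩ := SPL_tr K H w (act (σ : H ≃+* H) w) h1.symm
    have h2 : b.restrictScalars F = σ := hinj _ _ hb
    rw [← h2]
    ext x
    apply (algebraMap K H).injective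
    have h3 := AlgEquiv.restrictNormal_commutes (b.restrictScalars F) K x
    refine h3.trans ?_
    exact b.commutes x
  · intro P hP
    exact SPL_tr F K (w.under (𝓞 K)) P (hund.trans hP.symm)
  · intro x
    obtain ⟨e₁, he₁, h₁⟩ := (hVLU K H).1 w
    obtain ⟨e₂, he₂, h₂⟩ := (hVLU F K).1 (w.under (𝓞 K))
    have hlies : w.asIdeal.LiesOver (w.under (𝓞 F)).asIdeal := ⟨rfl⟩
    obtain ⟨y, hy⟩ := (w.under (𝓞 F)).valuation_exists_uniformizer F
    have hv := HeightOneSpectrum.valuation_liesOver H (w.under (𝓞 F)) w y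
    rw [SPL_e F H w hw, pow_one] at hv
    have e1 : ord w (algebraMap F H y) = 1 := by
      unfold ord
      rw [← hv, hy]
      simp
    have e2 : ord (w.under (𝓞 F)) y = 1 := by
      unfold ord
      rw [hy]
      simp
    have e3 : ord w (algebraMap F H y) = e₁ * (e₂ * ord (w.under (𝓞 F)) y) := by
      rw [IsScalarTower.algebraMap_apply F K H, (h₁ _).2.1, (h₂ _).2.1, hund]
    rw [e1, e2, mul_one] at e3
    have e4 : e₁ * e₂ = 1 := by exact_mod_cast e3.symm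
    have e5 : e₁ = 1 := Nat.eq_one_of_mul_eq_one_right e4
    rw [(h₁ x).2.1, e5]
    simp

end Pool.Agent.RB
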